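import Pool.Agent.N375.AV.D
import Pool.Agent.Results.MP_4eb8d9_nt.FewExceptions

/-!
# The Lang-Waldschmidt inequality for all products whose height is near values of additive functions and their compositions

Let `F = f_1 ∘ ⋯ ∘ f_k` be a composition of functions dominated by the largest prime factor: for example additive functions
`f` with `f (q^j) ≤ C q^j` at the prime powers, with different values at different large primes (the sum of the prime factors),
the largest prime factor itself, and Kempner's function. Let `G` have steps bounded below by a positive constant and growth at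
most `v ^ d`, `1 ≤ d < 2`, for example `G v = v`, and `0 ≤ κ < 1 - d / 2`. For all `m ≤ N` but
`K N exp (- c (log N)^(1 / (k + 1)))` the inequality of Lang and Waldschmidt
`|Λ - 1| ≥ max |bᵢ| / (|b₁| ⋯ |bₖ| |a₁| ⋯ |aₖ|) ^ (1 + η)` holds, with constant `1`, for EVERY product
`Λ = a₁ ^ b₁ ⋯ aₖ ^ bₖ ≠ 1` of powers of nonzero integers (`k` arbitrary) whose height `H` satisfies
`|H - G (F m)| ≤ F(m) ^ κ`, and every `η ≥ 0`. The values of `F` are taken with very large multiplicities and `F(m)` is in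
general much smaller than `m`, of the size of a power of `m` with an exponent which has a distribution function; and so this
does not follow from the number of exceptional rational numbers, for which one has only the bound `X ^ (1/2 + ε)`.

Proof. The preimage of a set with at most `K X exp (- c (log X)^β)` elements up to `X` under a function dominated by the largest
prime factor has at most `K' X exp (- c' (log X)^(β / (1 + β)))` elements. The exceptional set has a power saving by the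
starting theorem `FewExceptions` of this problem.
-/

set_option autoImplicit false

namespace Pool.Agent.Results.MP_4eb8d9_nt.AdditiveValues

open Finset
open Pool.Agent.N733.TG (Expanding expanding_pow)
open Pool.Agent.N375.AV (PD comp good pd_additive pd_largest pd_kempner)

/-- the height of a rational number -/
def ht (L : ℚ) : ℕ := max L.num.natAbs L.den

/-- The inequality of Lang and Waldschmidt holds for `L`, with constant `1` and every exponent `1 + η`, `η ≥ 0`, in every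
representation `L = a₁ ^ b₁ ⋯ aₖ ^ bₖ` by nonzero integers: `|L - 1| ≥ B / (|b₁| ⋯ |bₖ| |a₁| ⋯ |aₖ|) ^ (1 + η)`,
`B = max |bᵢ|`. -/
def Holds (L : ℚ) : Prop :=
  ∀ (η : ℝ) (k : ℕ) (a b : Fin k → ℤ), 0 ≤ η → (∀ i, a i ≠ 0) → (∀ i, b i ≠ 0) →
    ∏ i, ((a i : ℚ) ^ (b i)) = L →
    ((univ.sup fun i => (b i).natAbs : ℕ) : ℝ) /
      ((∏ i, |((b i : ℤ) : ℝ)|) * (∏ i, |((a i : ℤ) : ℝ)|)) ^ (1 + η) ≤ |(L : ℝ) - 1|

lemma count (ε : ℝ) (hε : 0 < ε) : ∃ C : ℝ, ∀ X : ℝ, 1 ≤ X →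
    {L : ℚ | (L ≠ 1 ∧ ¬ Holds L) ∧ ((ht L : ℕ) : ℝ) ≤ X}.Finite ∧
      ({L : ℚ | (L ≠ 1 ∧ ¬ Holds L) ∧ ((ht L : ℕ) : ℝ) ≤ X}.ncard : ℝ) ≤ C * X ^ (1 / 2 + ε) := by
  obtain ⟨C, hC⟩ := FewExceptions.result ε hε
  refine ⟨|C|, fun X hX => ?_⟩
  have hX0 : 0 < X := by linarith
  have hX1 : 1 ≤ ⌊X⌋₊ := Nat.le_floor (by exact_mod_cast hX)
  obtain ⟨h1, h2⟩ := hC ⌊X⌋₊ hX1
  have hsub : {L : ℚ | (L ≠ 1 ∧ ¬ Holds L) ∧ ((ht L : ℕ) : ℝ) ≤ X} ⊆ FewExceptions.Exceptional ⌊X⌋₊ := by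
    rintro L ⟨⟨h3, h4⟩, h5⟩
    have h6 : ht L ≤ ⌊X⌋₊ := Nat.le_floor h5
    unfold ht at h6
    refine ⟨h3, (le_max_left _ _).trans h6, (le_max_right _ _).trans h6, ?_⟩
    unfold Holds at h4
    push Not at h4
    obtain ⟨η, m, a, b, g1, g2, g3, g4, g5⟩ := h4
    exact ⟨η, m, a, b, g1, g2, g3, g4, g5⟩
  refine ⟨h1.subset hsub, ?_⟩
  have h3 : ((⌊X⌋₊ : ℕ) : ℝ) ^ (1 / 2 + ε) ≤ X ^ (1 / 2 + ε) :=
    Real.rpow_le_rpow (Nat.cast_nonneg _) (Nat.floor_le hX0.le) (by positivity)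
  calc ({L : ℚ | (L ≠ 1 ∧ ¬ Holds L) ∧ ((ht L : ℕ) : ℝ) ≤ X}.ncard : ℝ)
      ≤ ((FewExceptions.Exceptional ⌊X⌋₊).ncard : ℝ) := by exact_mod_cast Set.ncard_le_ncard hsub h1
    _ ≤ C * ((⌊X⌋₊ : ℕ) : ℝ) ^ (1 / 2 + ε) := h2
    _ ≤ |C| * ((⌊X⌋₊ : ℕ) : ℝ) ^ (1 / 2 + ε) := mul_le_mul_of_nonneg_right (le_abs_self C) (by positivity)
    _ ≤ |C| * X ^ (1 / 2 + ε) := mul_le_mul_of_nonneg_left h3 (abs_nonneg C)

/-- **The Lang-Waldschmidt inequality near the values of compositions of additive functions.** Let `F = f_1 ∘ ⋯ ∘ f_k`, `f_i`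
dominated by the largest prime factor. Let `G` have steps `≥ a > 0` and growth at most `v ^ d`, `κ ≥ 0` and `d / 2 + κ < 1`. For
all `m ≤ N` but `K N exp (- c (log N)^(1 / (k + 1)))` the inequality of Lang and Waldschmidt holds, with constant `1`, for ALL
rational numbers `L ≠ 1` whose height satisfies `|H(L) - G (F m)| ≤ F(m) ^ κ`, in all representations. The additive functions
with `f (q^j) ≤ C q^j` which are injective at the large primes, the largest prime factor and Kempner's function are examples of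
such functions `f_i`, and `α v ^ d` with `α > 0`, `d ≥ 1` is an example of `G`. -/
theorem result :
    (∀ fs : List (ℕ → ℕ), (∀ f ∈ fs, PD f) → ∀ (G : ℕ → ℝ) (d κ : ℝ), Expanding G d → 0 ≤ κ → d / 2 + κ < 1 →
      ∃ c K : ℝ, 0 < c ∧ ∀ N : ℕ, 1 ≤ N →
      ({m : ℕ | 1 ≤ m ∧ m ≤ N ∧ ¬ ∀ L : ℚ, L ≠ 1 → |((ht L : ℕ) : ℝ) - G (comp fs m)| ≤ (comp fs m : ℝ) ^ κ →
        Holds L}.ncard : ℝ) ≤ K * N * Real.exp (-(c * Real.log N ^ ((1 : ℝ) / (fs.length + 1))))) ∧
    (∀ f : ℕ → ℕ, (∀ a b : ℕ, Nat.Coprime a b → f (a * b) = f a + f b) →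
      (∃ C : ℕ, ∀ q j : ℕ, q.Prime → 1 ≤ j → f (q ^ j) ≤ C * q ^ j) →
      (∃ P : ℕ, ∀ p q : ℕ, p.Prime → q.Prime → P ≤ p → P ≤ q → f p = f q → p = q) → PD f) ∧
    (PD (fun n => n.primeFactors.sup id) ∧ PD (fun n => sInf {k : ℕ | n ∣ k.factorial})) ∧
    ∀ α d : ℝ, 0 < α → 1 ≤ d → Expanding (fun v => α * (v : ℝ) ^ d) d := by
  refine ⟨fun fs hfs G d κ hG hκ h1 => ?_, fun f h2 h3 h4 => pd_additive h2 h3 h4, ⟨pd_largest, pd_kempner⟩,
    fun α d hα hd => expanding_pow hα hd⟩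
  exact good (fun L : ℚ => L ≠ 1) Holds (fun L : ℚ => ((ht L : ℕ) : ℝ)) fs hfs hG
    (s := 1 / 2) (by norm_num) hκ (by linarith) count

end Pool.Agent.Results.MP_4eb8d9_nt.AdditiveValues
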