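import Pool.Agent.N733.TG.K
import Pool.Agent.Results.MP_4eb8d9_nt.FewExceptions

/-!
# The Lang-Waldschmidt inequality for all products whose height is near values of multiplicative functions

Let `f` be a positive multiplicative function of at most polynomial growth such that `f p ≤ M p` for the large primes `p`,
with different values at different large primes; for example Euler's function or the sum of the divisors. Let `G` have steps
bounded below by a positive constant and growth at most `v ^ d`, `1 ≤ d < 2`, for example `G v = v`, and `0 ≤ κ < 1 - d / 2`.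
For all `m ≤ N` but `N / (log N) ^ U`, the inequality of Lang and Waldschmidt
`|Λ - 1| ≥ max |bᵢ| / (|b₁| ⋯ |bₖ| |a₁| ⋯ |aₖ|) ^ (1 + η)` holds, with constant `1`, for EVERY product
`Λ = a₁ ^ b₁ ⋯ aₖ ^ bₖ ≠ 1` of powers of nonzero integers (`k` arbitrary) whose height `H` satisfies `|H - G (f m)| ≤ f(m) ^ κ`,
and every `η ≥ 0`. The values of `f` are in general taken with very large multiplicities, and so this does not follow from the
number of exceptional rational numbers, for which one has only the bound `X ^ (1/2 + ε)`.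
-/

set_option autoImplicit false

namespace Pool.Agent.Results.MP_4eb8d9_nt.MultiplicativeValues

open Finset
open Pool.Agent.N733.TG (LM Expanding lm_totient lm_sigma expanding_pow)

/-- the height of a rational number -/
def ht (L : ℚ) : ℕ := max L.num.natAbs L.den

/-- The inequality of Lang and Waldschmidt holds for `L`, with constant `1` and every exponent `1 + η`, `η ≥ 0`, in every
representation `L = a₁ ^ b₁ ⋯ aₖ ^ bₖ` by nonzero integers: `|L - 1| ≥ B / (|b₁| ⋯ |bₖ| |a₁| ⋯ |aₖ|) ^ (1 + η)`,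
`B = max |bᵢ|`. -/
def Holds (L : ℚ) : Prop :=
  ∀ (η : ℝ) (k : ℕ) (a b : Fin k → ℤ), 0 ≤ η → (∀ i, a i ≠ 0) → (∀ i, b i ≠ 0) →
    ∏ i, ((a i : ℚ) ^ (b i)) = L →
    ((univ.sup fun i => (b i).natAbs : ℕ) : ℝ) /
      ((∏ i, |((b i : ℤ) : ℝ)|) * (∏ i, |((a i : ℤ) : ℝ)|)) ^ (1 + η) ≤ |(L : ℝ) - 1|

lemma count (ε : ℝ) (hε : 0 < ε) : ∃ C : ℝ, ∀ X : ℝ, 1 ≤ X →
    {L : ℚ | (L ≠ 1 ∧ ¬ Holds L) ∧ ((ht L : ℕ) : ℝ) ≤ X}.Finite ∧
      ({L : ℚ | (L ≠ 1 ∧ ¬ Holds L) ∧ ((ht L : ℕ) : ℝ) ≤ X}.ncard : ℝ) ≤ C * X ^ (1 / 2 + ε) := by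
  obtain ⟨C, hC⟩ := FewExceptions.result ε hε
  refine ⟨|C|, fun X hX => ?_⟩
  have hX0 : 0 < X := by linarith
  have hX1 : 1 ≤ ⌊X⌋₊ := Nat.le_floor (by exact_mod_cast hX)
  obtain ⟨h1, h2⟩ := hC ⌊X⌋₊ hX1
  have hsub : {L : ℚ | (L ≠ 1 ∧ ¬ Holds L) ∧ ((ht L : ℕ) : ℝ) ≤ X} ⊆ FewExceptions.Exceptional ⌊X⌋₊ := by
    rintro L ⟨⟨h3, h4⟩, h5⟩
    have h6 : ht L ≤ ⌊X⌋₊ := Nat.le_floor h5
    unfold ht at h6
    refine ⟨h3, (le_max_left _ _).trans h6, (le_max_right _ _).trans h6, ?_⟩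
    unfold Holds at h4
    push Not at h4
    obtain ⟨η, m, a, b, g1, g2, g3, g4, g5⟩ := h4
    exact ⟨η, m, a, b, g1, g2, g3, g4, g5⟩
  refine ⟨h1.subset hsub, ?_⟩
  have h3 : ((⌊X⌋₊ : ℕ) : ℝ) ^ (1 / 2 + ε) ≤ X ^ (1 / 2 + ε) :=
    Real.rpow_le_rpow (Nat.cast_nonneg _) (Nat.floor_le hX0.le) (by positivity)
  calc ({L : ℚ | (L ≠ 1 ∧ ¬ Holds L) ∧ ((ht L : ℕ) : ℝ) ≤ X}.ncard : ℝ)
      ≤ ((FewExceptions.Exceptional ⌊X⌋₊).ncard : ℝ) := by exact_mod_cast Set.ncard_le_ncard hsub h1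
    _ ≤ C * ((⌊X⌋₊ : ℕ) : ℝ) ^ (1 / 2 + ε) := h2
    _ ≤ |C| * ((⌊X⌋₊ : ℕ) : ℝ) ^ (1 / 2 + ε) := mul_le_mul_of_nonneg_right (le_abs_self C) (by positivity)
    _ ≤ |C| * X ^ (1 / 2 + ε) := mul_le_mul_of_nonneg_left h3 (abs_nonneg C)

/-- **Theorem.** Let `f` be multiplicative and positive, of at most polynomial growth, with `f p ≤ M p` at the large primes,
and injective there. Let `G` have steps `≥ a > 0` and growth at most `v ^ d`, `κ ≥ 0` and `d / 2 + κ < 1`. Then for every `U`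
and all large `N`: for all `m ≤ N` but `N / (log N) ^ U` the inequality of Lang and Waldschmidt holds, with constant `1`, for
ALL rational numbers `L ≠ 1` whose height satisfies `|H(L) - G (f m)| ≤ f(m) ^ κ`, in all representations. Euler's function and
the sum of the divisors are examples of such functions `f`, and `α v ^ d` with `α > 0`, `d ≥ 1` is an example of `G`. -/
theorem result :
    (∀ f : ℕ → ℕ, LM f → ∀ (G : ℕ → ℝ) (d κ : ℝ), Expanding G d → 0 ≤ κ → d / 2 + κ < 1 → ∀ U : ℕ,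
      ∃ N₀ : ℕ, ∀ N : ℕ, N₀ ≤ N →
        ({m : ℕ | 1 ≤ m ∧ m ≤ N ∧ ¬ ∀ L : ℚ, L ≠ 1 → |((ht L : ℕ) : ℝ) - G (f m)| ≤ (f m : ℝ) ^ κ →
          Holds L}.ncard : ℝ) ≤ N / Real.log N ^ U) ∧
    (LM Nat.totient ∧ LM (fun m => ∑ d ∈ m.divisors, d)) ∧
    ∀ α d : ℝ, 0 < α → 1 ≤ d → Expanding (fun v => α * (v : ℝ) ^ d) d := by
  refine ⟨fun f hf G d κ hG hκ h1 U => ?_, ⟨lm_totient, lm_sigma⟩, fun α d hα hd => expanding_pow hα hd⟩
  exact Pool.Agent.N733.TG.keep_good (fun L : ℚ => L ≠ 1) Holds (fun L : ℚ => ((ht L : ℕ) : ℝ)) hf hG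
    (s := 1 / 2) (by norm_num) hκ (by linarith) count U

end Pool.Agent.Results.MP_4eb8d9_nt.MultiplicativeValues
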