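import Pool.Agent.N671.DA.Win
import Pool.Agent.Results.MP_4eb8d9_nt.FewExceptions

/-!
# The Lang-Waldschmidt inequality for all products whose height is near functions of the denominators of good approximations

Let `α_1, …, α_m` be real numbers. We consider the natural numbers `q` with `‖q α_j - β_j‖ ≤ c q^(-τ)` for all `j`, `‖x‖` the
distance to the nearest integer; for `β = 0`, `c = 1`, `τ = 1 / m` these include the denominators of all best simultaneous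
approximations (the denominators of the convergents for `m = 1`). They form a very sparse sequence, with gaps growing
exponentially for almost all `α` if `τ = 1 / m`. We show: let `G` be a function with steps bounded below by a positive constant
and growth at most `v^d`, for example `a v^d`. For all `α` in `ℝ^m` outside a set of Hausdorff dimension at most
`(m + d / 2 + κ) / (1 + τ)`, and all `c`, for all but finitely many such `q` the inequality of Lang and Waldschmidt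
`|Λ - 1| ≥ max |bᵢ| / (|b₁| ⋯ |bₖ| |a₁| ⋯ |aₖ|) ^ (1 + η)` holds, with constant `1`, for EVERY product
`Λ = a₁ ^ b₁ ⋯ aₖ ^ bₖ ≠ 1` of powers of nonzero integers (`k` arbitrary) whose height `H` satisfies `|H - G q| ≤ q ^ κ`, and
every `η ≥ 0`. For `τ = 1 / m` the bound is less than `m` if `d / 2 + κ < 1`; and so the statement holds for almost all `α`.

Proof. The `q` such that the height of some exceptional rational number is near `G q` form a set with `O(X^(d / 2 + κ + ε))`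
elements up to `X`, by the starting theorem `FewExceptions` of this problem; and the `α` with `‖q α_j - β_j‖ ≤ c q^(-τ)` for all
`j` and infinitely many `q` of such a set are covered by few small cubes.
-/

set_option autoImplicit false

namespace Pool.Agent.Results.MP_4eb8d9_nt.SimultaneousApproximations

open Finset
open Pool.Agent.N671.DA (Solves Expanding expanding_pow approx_good)

/-- the height of a rational number -/
def ht (L : ℚ) : ℕ := max L.num.natAbs L.den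

/-- The inequality of Lang and Waldschmidt holds for `L`, with constant `1` and every exponent `1 + η`, `η ≥ 0`, in every
representation `L = a₁ ^ b₁ ⋯ aₖ ^ bₖ` by nonzero integers: `|L - 1| ≥ B / (|b₁| ⋯ |bₖ| |a₁| ⋯ |aₖ|) ^ (1 + η)`,
`B = max |bᵢ|`. -/
def Holds (L : ℚ) : Prop :=
  ∀ (η : ℝ) (k : ℕ) (a b : Fin k → ℤ), 0 ≤ η → (∀ i, a i ≠ 0) → (∀ i, b i ≠ 0) →
    ∏ i, ((a i : ℚ) ^ (b i)) = L →
    ((univ.sup fun i => (b i).natAbs : ℕ) : ℝ) /
      ((∏ i, |((b i : ℤ) : ℝ)|) * (∏ i, |((a i : ℤ) : ℝ)|)) ^ (1 + η) ≤ |(L : ℝ) - 1|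

lemma count (ε : ℝ) (hε : 0 < ε) : ∃ C : ℝ, ∀ X : ℝ, 1 ≤ X →
    {L : ℚ | (L ≠ 1 ∧ ¬ Holds L) ∧ ((ht L : ℕ) : ℝ) ≤ X}.Finite ∧
      ({L : ℚ | (L ≠ 1 ∧ ¬ Holds L) ∧ ((ht L : ℕ) : ℝ) ≤ X}.ncard : ℝ) ≤ C * X ^ (1 / 2 + ε) := by
  obtain ⟨C, hC⟩ := FewExceptions.result ε hε
  refine ⟨|C|, fun X hX => ?_⟩
  have hX0 : 0 < X := by linarith
  have hX1 : 1 ≤ ⌊X⌋₊ := Nat.le_floor (by exact_mod_cast hX)
  obtain ⟨h1, h2⟩ := hC ⌊X⌋₊ hX1
  have hsub : {L : ℚ | (L ≠ 1 ∧ ¬ Holds L) ∧ ((ht L : ℕ) : ℝ) ≤ X} ⊆ FewExceptions.Exceptional ⌊X⌋₊ := by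
    rintro L ⟨⟨h3, h4⟩, h5⟩
    have h6 : ht L ≤ ⌊X⌋₊ := Nat.le_floor h5
    unfold ht at h6
    refine ⟨h3, (le_max_left _ _).trans h6, (le_max_right _ _).trans h6, ?_⟩
    unfold Holds at h4
    push Not at h4
    obtain ⟨η, m, a, b, g1, g2, g3, g4, g5⟩ := h4
    exact ⟨η, m, a, b, g1, g2, g3, g4, g5⟩
  refine ⟨h1.subset hsub, ?_⟩
  have h3 : ((⌊X⌋₊ : ℕ) : ℝ) ^ (1 / 2 + ε) ≤ X ^ (1 / 2 + ε) :=
    Real.rpow_le_rpow (Nat.cast_nonneg _) (Nat.floor_le hX0.le) (by positivity)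
  calc ({L : ℚ | (L ≠ 1 ∧ ¬ Holds L) ∧ ((ht L : ℕ) : ℝ) ≤ X}.ncard : ℝ)
      ≤ ((FewExceptions.Exceptional ⌊X⌋₊).ncard : ℝ) := by exact_mod_cast Set.ncard_le_ncard hsub h1
    _ ≤ C * ((⌊X⌋₊ : ℕ) : ℝ) ^ (1 / 2 + ε) := h2
    _ ≤ |C| * ((⌊X⌋₊ : ℕ) : ℝ) ^ (1 / 2 + ε) := mul_le_mul_of_nonneg_right (le_abs_self C) (by positivity)
    _ ≤ |C| * X ^ (1 / 2 + ε) := mul_le_mul_of_nonneg_left h3 (abs_nonneg C)

/-- **The Lang-Waldschmidt inequality near the denominators of good approximations.** Let `G` have steps `≥ a > 0` and growth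
at most `v ^ d`. Let `0 ≤ κ ≤ 1`, `β` in `ℝ^m` and `τ > 0`. For all `α` in `ℝ^m` outside a set of Hausdorff dimension at most
`(m + d / 2 + κ) / (1 + τ)` and all `c`, for all large `q` with `‖q α_j - β_j‖ ≤ c q^(-τ)` for all `j`, the inequality of Lang
and Waldschmidt holds, with constant `1`, for ALL rational numbers `L ≠ 1` whose height satisfies `|H(L) - G q| ≤ q ^ κ`, in all
representations. The functions `a v^d` with `a > 0`, `d ≥ 1` are examples of `G`. -/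
theorem result :
    (∀ (G : ℕ → ℝ) (d κ : ℝ), Expanding G d → 0 ≤ κ → κ ≤ 1 →
      ∀ (m : ℕ) (β : Fin m → ℝ) (τ : ℝ), 0 < τ →
      ∃ E : Set (Fin m → ℝ), dimH E ≤ ENNReal.ofReal ((m + (d / 2 + κ)) / (1 + τ)) ∧
        ∀ α, α ∉ E → ∀ c : ℝ, ∃ Q : ℕ, ∀ q : ℕ, Q ≤ q → Solves α β q (c * (q : ℝ) ^ (-τ)) →
          ∀ L : ℚ, L ≠ 1 → |((ht L : ℕ) : ℝ) - G q| ≤ (q : ℝ) ^ κ → Holds L) ∧
    ∀ α d : ℝ, 0 < α → 1 ≤ d → Expanding (fun v => α * (v : ℝ) ^ d) d := by
  refine ⟨fun G d κ hG hκ hκ1 m β τ hτ => ?_, fun α d hα hd => expanding_pow hα hd⟩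
  obtain ⟨E, hE, hE2⟩ := approx_good (fun L : ℚ => L ≠ 1) Holds (fun L : ℚ => ((ht L : ℕ) : ℝ)) hG
    (s := 1 / 2) (κ := κ) (by norm_num) hκ hκ1 count β hτ
  rw [mul_one_div] at hE
  exact ⟨E, hE, hE2⟩

end Pool.Agent.Results.MP_4eb8d9_nt.SimultaneousApproximations
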